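import Pool.Agent.H5R2.NB.ALL
import Pool.Agent.H5R2.NBA.ZAC
import Pool.Agent.H5R2.NBA.LIM2
import Pool.Agent.H5R2.NBA.FIN

/-! # All states of the Anderson model have zero asymptotic velocity (laws with bounded density)

The theorem `St_ZERO` of `Pool/Agent/H5R2/NB` (velocity zero at `δ_0`) is extended to all vectors by
translation invariance, and then to all measurable choices of a vector, as in
`Pool/Agent/H5R2/NBA/FINA.lean`, `FIN.lean` for the absolutely continuous subspace. -/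

set_option autoImplicit false

open MeasureTheory Filter Topology
open scoped BigOperators ENNReal NNReal InnerProductSpace ComplexConjugate

namespace Pool.Agent.TH409.ZV

open Pool.Agent.H5R2.NB Pool.Agent.H5R2.NBA

variable {d : ℕ}

theorem shift_dl {z : Site d} {T : L2 (Site d) →L[ℂ] L2 (Site d)} (hT : IsShift (-z) T) :
    T (dl 0) = dl z := by
  ext x
  rw [hT]
  unfold dl
  rw [lp.coeFn_single, lp.coeFn_single]
  by_cases h : x = z
  · subst h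
    simp
  · have h1 : x + -z ≠ 0 := by
      intro h2
      exact h (by rw [← sub_eq_zero, sub_eq_add_neg]; exact h2)
    rw [Pi.single_eq_of_ne h1, Pi.single_eq_of_ne h]

theorem ext_dl {B : L2 (Site d) →L[ℂ] L2 (Site d)} (h : ∀ z, B (dl z) = 0) (ψ : L2 (Site d)) :
    B ψ = 0 := by
  have h1 : HasSum (fun x : Site d => (lp.single 2 x (ψ x) : L2 (Site d))) ψ :=
    lp.hasSum_single (by norm_num) ψ
  have h2 := B.hasSum h1
  have h3 : ∀ x : Site d, B (lp.single 2 x (ψ x)) = 0 := by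
    intro x
    have e : (lp.single 2 x (ψ x) : L2 (Site d)) = (ψ x) • dl x := by
      unfold dl
      rw [← lp.single_smul]
      simp
    rw [e, map_smul, h x, smul_zero]
  have h4 : (fun x : Site d => B (lp.single 2 x (ψ x))) = fun _ => 0 := funext h3
  rw [h4] at h2
  exact h2.unique hasSum_zero

open ZAC in
theorem zero_all : ∀ (d : ℕ) (c : ℝ) (ev : (Site d → ℝ) → UG (L2 (Site d))),
    (∀ V, IsGrp c V (ev V)) →
    ∀ (ν : Measure ℝ) [IsProbabilityMeasure ν] (C : ℝ≥0), ν ≤ C • volume →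
    ∀ (j : Fin d) (v : L2 (Site d) →L[ℂ] L2 (Site d)), IsVel c j v →
    ∀ (Nk : ℕ → ℕ), Tendsto Nk atTop atTop →
      (∀ᵐ V ∂(PP d ν), ∃ B : L2 (Site d) →L[ℂ] L2 (Site d), Good (ev V) v Nk B) →
      ∀ᵐ V ∂(PP d ν), ∀ B : L2 (Site d) →L[ℂ] L2 (Site d), Good (ev V) v Nk B →
        ∀ ψ, B ψ = 0 := by
  intro d c ev hev ν _ C hν j v hv Nk hNk hG
  have h2 := Pool.Agent.H5R2.NB.ALL.a_ZERO d c ev hev ν C hν j v hv Nk hNk hG
  have h3 : ∀ᵐ V ∂(PP d ν), ∀ z : Site d, ∀ B : L2 (Site d) →L[ℂ] L2 (Site d),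
      Good (ev fun y => V (y + z)) v Nk B → B (dl 0) = 0 := by
    rw [ae_all_iff]
    intro z
    exact ((t_RES d ν).2 z).quasiMeasurePreserving.ae h2
  filter_upwards [h3] with V hV B hB ψ
  refine ext_dl (fun z => ?_) ψ
  obtain ⟨S, hS⟩ := (t_OPS d).1 z
  obtain ⟨T, hT⟩ := (t_OPS d).1 (-z)
  have h4 := hV z _ (good_conj hev hv hS hT V Nk B hB)
  have h5 : S (B (T (dl 0))) = 0 := h4
  rw [shift_dl hT] at h5
  have h6 := congrArg T h5
  rw [inv2 hS hT, map_zero] at h6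
  exact h6

open FINA in
theorem fina (d : ℕ) (c : ℝ) (ev : (Site d → ℝ) → UG (L2 (Site d))) (hev : ∀ V, IsGrp c V (ev V))
    (ν : Measure ℝ) [IsProbabilityMeasure ν] (C : ℝ≥0) (hν : ν ≤ C • volume)
    (j : Fin d) (v : L2 (Site d) →L[ℂ] L2 (Site d)) (hv : IsVel c j v)
    (ψ : (Site d → ℝ) → L2 (Site d)) (M : ℝ) (hψ : AEStronglyMeasurable ψ (PP d ν))
    (hM : ∀ V, ‖ψ V‖ ≤ M) :
    Tendsto (fun N : ℕ => ∫⁻ V, ‖avP (ev V) v N (ψ V)‖ₑ ^ 2 ∂(PP d ν)) atTop (𝓝 0) := by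
  have : IsProbabilityMeasure (PP d ν) := by unfold PP; infer_instance
  refine tendsto_of_subseq_tendsto ?_
  intro Mk hMk
  obtain ⟨a, ha, hG⟩ := t_LIM2 d c ev hev ν j v hv Mk hMk
  have hNk : Tendsto (Mk ∘ a) atTop atTop := hMk.comp ha.tendsto_atTop
  have hz := zero_all d c ev hev ν C hν j v hv (Mk ∘ a) hNk hG
  refine ⟨a, ?_⟩
  have key : Tendsto (fun k => ∫⁻ V, ‖avP (ev V) v (Mk (a k)) (ψ V)‖ₑ ^ 2 ∂(PP d ν)) atTop
      (𝓝 (∫⁻ _V, 0 ∂(PP d ν))) := by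
    refine tendsto_lintegral_of_dominated_convergence'
      (fun _ => ENNReal.ofReal ((‖v‖ * M) ^ 2)) (fun k => ?_) (fun k => ?_) ?_ ?_
    · exact (aesm_avP ev hev v _ _ ψ hψ).enorm.pow_const 2
    · refine Eventually.of_forall fun V => ?_
      have h3 : ‖avP (ev V) v (Mk (a k)) (ψ V)‖ ≤ ‖v‖ * M := by
        refine (LIMB.norm_avg _ (‖v‖ * ‖ψ V‖) (fun s => LIMB.norm_P _ v _ _ _) _).trans ?_
        exact mul_le_mul_of_nonneg_left (hM V) (norm_nonneg _)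
      show ‖avP (ev V) v (Mk (a k)) (ψ V)‖ₑ ^ 2 ≤ ENNReal.ofReal ((‖v‖ * M) ^ 2)
      rw [← ofReal_norm, ← ENNReal.ofReal_pow (norm_nonneg _)]
      exact ENNReal.ofReal_le_ofReal (pow_le_pow_left₀ (norm_nonneg _) h3 2)
    · rw [lintegral_const]
      simp
    · filter_upwards [hG, hz] with V hV hV2
      obtain ⟨B, hB⟩ := hV
      have h4 := (hB (ψ V)).1
      rw [hV2 B hB (ψ V)] at h4
      have h5 := h4.enorm
      rw [enorm_zero] at h5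
      have h6 := (ENNReal.continuous_pow 2).tendsto 0 |>.comp h5
      simpa [Function.comp_def] using h6
  simpa using key

open Pool.Agent.H5R2.NBA.FIN FINA in
theorem fin (d : ℕ) (c : ℝ) (ev : (Site d → ℝ) → UG (L2 (Site d))) (hev : ∀ V, IsGrp c V (ev V))
    (ν : Measure ℝ) [IsProbabilityMeasure ν] (C : ℝ≥0) (hν : ν ≤ C • volume)
    (j : Fin d) (v : L2 (Site d) →L[ℂ] L2 (Site d)) (hv : IsVel c j v)
    (ψ : (Site d → ℝ) → L2 (Site d)) (M : ℝ) (hψ : AEStronglyMeasurable ψ (PP d ν))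
    (hM : ∀ V, ‖ψ V‖ ≤ M) :
    Tendsto (fun T : ℝ => ∫⁻ V, ‖((T : ℂ)⁻¹) • ∫ s in (0 : ℝ)..T,
        (ev V).U (-s) (v ((ev V).U s (ψ V)))‖ₑ ^ 2 ∂(PP d ν)) atTop (𝓝 0) := by
  have : IsProbabilityMeasure (PP d ν) := by unfold PP; infer_instance
  have h := fina d c ev hev ν C hν j v hv ψ M hψ hM
  have hM0 : 0 ≤ M := (norm_nonneg _).trans (hM 0)
  have hfl : Tendsto (fun t : ℝ => ⌊t⌋₊) atTop atTop := tendsto_nat_floor_atTop
  have h2 := h.comp hfl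
  have h3 : Tendsto (fun T : ℝ => 2 * (∫⁻ V, ‖avP (ev V) v ⌊T⌋₊ (ψ V)‖ₑ ^ 2 ∂(PP d ν)) +
      ENNReal.ofReal (2 * (T⁻¹ * (‖v‖ * M)) ^ 2)) atTop (𝓝 0) := by
    have a1 : Tendsto (fun T : ℝ => 2 * (∫⁻ V, ‖avP (ev V) v ⌊T⌋₊ (ψ V)‖ₑ ^ 2 ∂(PP d ν)))
        atTop (𝓝 0) := by
      have := ENNReal.Tendsto.const_mul (a := 2) h2 (Or.inr (by norm_num))
      simpa using this
    have a2 : Tendsto (fun T : ℝ => ENNReal.ofReal (2 * (T⁻¹ * (‖v‖ * M)) ^ 2)) atTop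
        (𝓝 0) := by
      have b1 : Tendsto (fun T : ℝ => 2 * (T⁻¹ * (‖v‖ * M)) ^ 2) atTop (𝓝 0) := by
        have b2 := ((tendsto_inv_atTop_zero (𝕜 := ℝ)).mul_const (‖v‖ * M)).pow 2
        have b3 := b2.const_mul 2
        simpa using b3
      have := ENNReal.tendsto_ofReal b1
      simpa using this
    simpa using a1.add a2
  refine tendsto_of_tendsto_of_tendsto_of_le_of_le' tendsto_const_nhds h3
    (Eventually.of_forall fun t => bot_le) ?_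
  filter_upwards [eventually_ge_atTop (1 : ℝ)] with T hT
  have hm2 : AEMeasurable (fun V => ‖avP (ev V) v ⌊T⌋₊ (ψ V)‖ₑ ^ 2) (PP d ν) :=
    (aesm_avP ev hev v _ _ ψ hψ).enorm.pow_const 2
  have hpt : ∀ V, ‖((T : ℂ)⁻¹) • ∫ s in (0 : ℝ)..T,
        (ev V).U (-s) (v ((ev V).U s (ψ V)))‖ₑ ^ 2 ≤
      2 * ‖avP (ev V) v ⌊T⌋₊ (ψ V)‖ₑ ^ 2 + ENNReal.ofReal (2 * (T⁻¹ * (‖v‖ * M)) ^ 2) := by
    intro V
    have g1 := norm_real (ev V) v (ψ V) T hT
    have g2 : T⁻¹ * (‖v‖ * ‖ψ V‖) ≤ T⁻¹ * (‖v‖ * M) :=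
      mul_le_mul_of_nonneg_left (mul_le_mul_of_nonneg_left (hM V) (norm_nonneg _))
        (by positivity)
    set A := ‖((T : ℂ)⁻¹) • ∫ s in (0 : ℝ)..T, (ev V).U (-s) (v ((ev V).U s (ψ V)))‖ with hA
    set Bn := ‖avP (ev V) v ⌊T⌋₊ (ψ V)‖ with hBn
    set D := T⁻¹ * (‖v‖ * M) with hD
    have g3 : A ^ 2 ≤ 2 * Bn ^ 2 + 2 * D ^ 2 := by
      have hA0 : 0 ≤ A := norm_nonneg _
      have g4 : A ≤ Bn + D := by linarith
      have g5 : A ^ 2 ≤ (Bn + D) ^ 2 := pow_le_pow_left₀ hA0 g4 2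
      nlinarith [sq_nonneg (Bn - D)]
    have e2 : (2 : ℝ≥0∞) * ENNReal.ofReal (Bn ^ 2) = ENNReal.ofReal (2 * Bn ^ 2) := by
      rw [ENNReal.ofReal_mul (by norm_num)]
      norm_num
    rw [← ofReal_norm, ← ofReal_norm, ← hA, ← hBn, ← ENNReal.ofReal_pow (norm_nonneg _),
      ← ENNReal.ofReal_pow (norm_nonneg _), e2,
      ← ENNReal.ofReal_add (by positivity) (by positivity)]
    exact ENNReal.ofReal_le_ofReal g3
  calc (∫⁻ V, ‖((T : ℂ)⁻¹) • ∫ s in (0 : ℝ)..T,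
        (ev V).U (-s) (v ((ev V).U s (ψ V)))‖ₑ ^ 2 ∂(PP d ν))
      ≤ ∫⁻ V, (2 * ‖avP (ev V) v ⌊T⌋₊ (ψ V)‖ₑ ^ 2 +
        ENNReal.ofReal (2 * (T⁻¹ * (‖v‖ * M)) ^ 2)) ∂(PP d ν) :=
        lintegral_mono fun V => hpt V
    _ = _ := by
        rw [lintegral_add_right _ measurable_const, lintegral_const_mul'' _ hm2]
        simp

end Pool.Agent.TH409.ZV
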